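import Mathlib

set_option autoImplicit false

universe u v

namespace Pool.Agent.Results.MP_dd6e79_al.NoUniformOscillation

open Filter Pointwise

/-! ### Definitions -/

/-- The elements of the semigroup `S` that can be written as a product of at most `n` elements of `X`,
that is `x * y₁ * ⋯ * y_l` with `x, y₁, …, y_l ∈ X` and `l + 1 ≤ n`. -/
def ball {S : Type u} [Semigroup S] (X : Set S) (n : ℕ) : Set S :=
  {s | ∃ x ∈ X, ∃ l : List S, (∀ y ∈ l, y ∈ X) ∧ l.length + 1 ≤ n ∧ l.foldl (· * ·) x = s}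

/-- The growth function of `S` with respect to the finite set `X`: the number of elements of `S` that
can be written as a product of at most `n` elements of `X`. -/
noncomputable def growth {S : Type u} [Semigroup S] (X : Finset S) (n : ℕ) : ℕ :=
  (ball (X : Set S) n).ncard

/-- A semigroup is finitely presented if it is isomorphic to the quotient of a free semigroup on
`k` letters by the congruence generated by a finite set of pairs of words. -/
def IsFinitelyPresented (S : Type u) [Semigroup S] : Prop :=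
  ∃ (k : ℕ) (r : Finset (FreeSemigroup (Fin k) × FreeSemigroup (Fin k))),
    Nonempty ((conGen fun a b => (a, b) ∈ r).Quotient ≃* S)

/-- `f ⪯ g`: there is a constant `C ≥ 1` with `f n ≤ C * g (C * n)` for all `n`. -/
def Dom (f g : ℕ → ℕ) : Prop := ∃ C : ℕ, 1 ≤ C ∧ ∀ n, f n ≤ C * g (C * n)

/-- Equivalence of growth functions. -/
def Equivalent (f g : ℕ → ℕ) : Prop := Dom f g ∧ Dom g f

/-- Subexponential growth, `f(n)^(1/n) → 1`: for every `k`, eventually `f(n)^k ≤ 2^n`. -/
def SubExp (f : ℕ → ℕ) : Prop := ∀ k : ℕ, ∀ᶠ n in atTop, f n ^ k ≤ 2 ^ n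

/-! ### Balls -/

section Balls

variable {S : Type u} [Semigroup S]

lemma foldl_mul (x y : S) (l : List S) : l.foldl (· * ·) (x * y) = x * l.foldl (· * ·) y := by
  induction l generalizing y with
  | nil => rfl
  | cons a l ih => rw [List.foldl_cons, List.foldl_cons, mul_assoc, ih]

lemma ball_zero (X : Set S) : ball X 0 = ∅ := by
  ext s
  simp [ball]

lemma ball_mono (X : Set S) {m n : ℕ} (h : m ≤ n) : ball X m ⊆ ball X n := by
  rintro s ⟨x, hx, l, hl, hlen, rfl⟩
  exact ⟨x, hx, l, hl, hlen.trans h, rfl⟩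

lemma ball_add (X : Set S) (m n : ℕ) : ball X (m + n) ⊆ ball X m ∪ ball X n ∪ ball X m * ball X n := by
  rintro s ⟨x, hx, l, hl, hlen, rfl⟩
  by_cases h1 : l.length + 1 ≤ m
  · exact Or.inl (Or.inl ⟨x, hx, l, hl, h1, rfl⟩)
  by_cases h2 : m = 0
  · subst h2
    exact Or.inl (Or.inr ⟨x, hx, l, hl, by omega, rfl⟩)
  right
  obtain ⟨l1, l2, rfl, hl1⟩ : ∃ l1 l2, l = l1 ++ l2 ∧ l1.length = m - 1 :=
    ⟨l.take (m - 1), l.drop (m - 1), (List.take_append_drop _ _).symm, by
      rw [List.length_take]; omega⟩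
  rw [List.length_append] at h1 hlen
  obtain ⟨y, l3, rfl⟩ : ∃ y l3, l2 = y :: l3 := by
    cases l2 with
    | nil => simp at h1; omega
    | cons y l3 => exact ⟨y, l3, rfl⟩
  rw [List.foldl_append, List.foldl_cons, foldl_mul]
  refine Set.mul_mem_mul ⟨x, hx, l1, fun z hz => hl z (by simp [hz]), by omega, rfl⟩
    ⟨y, hl y (by simp), l3, fun z hz => hl z (by simp [hz]), ?_, rfl⟩
  rw [List.length_cons] at hlen
  omega

lemma ball_one (X : Set S) : ball X 1 = X := by
  ext s
  constructor
  · rintro ⟨x, hx, l, hl, hlen, rfl⟩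
    have : l = [] := by
      rw [← List.length_eq_zero_iff]; omega
    subst this
    exact hx
  · intro hs
    exact ⟨s, hs, [], by simp, by simp, rfl⟩

lemma ball_finite (X : Finset S) (n : ℕ) : (ball (X : Set S) n).Finite := by
  induction n with
  | zero => rw [ball_zero]; exact Set.finite_empty
  | succ n ih =>
    refine Set.Finite.subset ?_ (ball_add _ n 1)
    rw [ball_one]
    exact (ih.union X.finite_toSet).union (ih.mul X.finite_toSet)

lemma growth_mono (X : Finset S) : Monotone (growth X) := fun _ _ h =>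
  Set.ncard_le_ncard (ball_mono _ h) (ball_finite X _)

lemma growth_add (X : Finset S) (m n : ℕ) :
    growth X (m + n) + 1 ≤ (growth X m + 1) * (growth X n + 1) := by
  have h1 := Set.ncard_le_ncard (ball_add (X : Set S) m n)
    (((ball_finite X m).union (ball_finite X n)).union ((ball_finite X m).mul (ball_finite X n)))
  have h2 := Set.ncard_union_le (ball (X : Set S) m ∪ ball (X : Set S) n)
    (ball (X : Set S) m * ball (X : Set S) n)
  have h3 := Set.ncard_union_le (ball (X : Set S) m) (ball (X : Set S) n)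
  have h4 : (ball (X : Set S) m * ball (X : Set S) n).ncard ≤
      (ball (X : Set S) m).ncard * (ball (X : Set S) n).ncard := by
    rw [← Set.image2_mul, ← Set.image_prod, ← Set.ncard_prod]
    exact Set.ncard_image_le ((ball_finite X m).prod (ball_finite X n))
  unfold growth
  nlinarith

end Balls

/-- Growth functions are invariant under isomorphism. -/
lemma growth_equiv {S : Type u} {T : Type v} [Semigroup S] [Semigroup T] (e : S ≃* T) (X : Finset S)
    (Y : Finset T) (h : (Y : Set T) = e '' (X : Set S)) : growth Y = growth X := by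
  classical
  have key : ∀ (l : List S) (x : S), (l.map e).foldl (· * ·) (e x) = e (l.foldl (· * ·) x) := by
    intro l
    induction l with
    | nil => intro x; rfl
    | cons a l ih =>
      intro x
      rw [List.map_cons, List.foldl_cons, List.foldl_cons, ← map_mul, ih]
  funext n
  unfold growth
  have : ball (Y : Set T) n = e '' ball (X : Set S) n := by
    ext t
    constructor
    · rintro ⟨y, hy, l, hl, hlen, rfl⟩
      rw [h] at hy
      obtain ⟨x, hx, rfl⟩ := hy
      refine ⟨(l.map e.symm).foldl (· * ·) x, ⟨x, hx, l.map e.symm, ?_, by simpa using hlen, rfl⟩, ?_⟩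
      · intro z hz
        rw [List.mem_map] at hz
        obtain ⟨w, hw, rfl⟩ := hz
        have := hl w hw
        rw [h] at this
        obtain ⟨z, hz, rfl⟩ := this
        simpa using hz
      · rw [← key]
        congr 1
        rw [List.map_map]
        conv_rhs => rw [← List.map_id l]
        congr 1
        ext z
        simp
    · rintro ⟨s, ⟨x, hx, l, hl, hlen, rfl⟩, rfl⟩
      refine ⟨e x, ?_, l.map e, ?_, by simpa using hlen, key l x⟩
      · rw [h]; exact ⟨x, hx, rfl⟩
      · intro z hz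
        rw [List.mem_map] at hz
        obtain ⟨w, hw, rfl⟩ := hz
        rw [h]; exact ⟨w, hl w hw, rfl⟩
  rw [this, Set.ncard_image_of_injective _ e.injective]

/-! ### The dichotomy between exponential and subexponential growth -/

/-- either exponential growth or subexponential growth, for a submultiplicative function -/
lemma dichotomy (b : ℕ → ℕ) (hmono : Monotone b)
    (hmul : ∀ m n, b (m + n) ≤ b m * b n) :
    (∃ k : ℕ, 1 ≤ k ∧ ∀ n, 1 ≤ n → 2 ^ n < b n ^ k) ∨ SubExp b := by
  by_cases hex : ∃ k : ℕ, 1 ≤ k ∧ ∀ n, 1 ≤ n → 2 ^ n < b n ^ k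
  · exact Or.inl hex
  right
  push Not at hex
  intro k
  rcases Nat.eq_zero_or_pos k with rfl | hk
  · filter_upwards with n
    simpa using Nat.one_le_two_pow
  obtain ⟨m, hm, hbm⟩ := hex (2 * k) (by omega)
  filter_upwards [eventually_ge_atTop m] with n hn
  have hq : ∀ q r, r < m → b (m * q + r) ≤ b m ^ (q + 1) := by
    intro q r hr
    induction q with
    | zero => simpa using hmono hr.le
    | succ q ih =>
      have : m * (q + 1) + r = m + (m * q + r) := by ring
      rw [this]
      calc b (m + (m * q + r)) ≤ b m * b (m * q + r) := hmul _ _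
        _ ≤ b m * b m ^ (q + 1) := Nat.mul_le_mul_left _ ih
        _ = b m ^ (q + 1 + 1) := by ring
  have h1 : b n ≤ b m ^ (n / m + 1) := by
    have := hq (n / m) (n % m) (Nat.mod_lt _ hm)
    rwa [Nat.div_add_mod] at this
  have h2 : b n ^ (2 * k) ≤ 2 ^ (2 * n) := by
    calc b n ^ (2 * k) ≤ (b m ^ (n / m + 1)) ^ (2 * k) := Nat.pow_le_pow_left h1 _
      _ = (b m ^ (2 * k)) ^ (n / m + 1) := by rw [← pow_mul, ← pow_mul, mul_comm]
      _ ≤ (2 ^ m) ^ (n / m + 1) := Nat.pow_le_pow_left hbm _
      _ = 2 ^ (m * (n / m) + m) := by rw [← pow_mul]; ring_nf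
      _ ≤ 2 ^ (2 * n) := by
        apply Nat.pow_le_pow_right (by norm_num)
        have := Nat.mul_div_le n m
        omega
  rw [mul_comm 2 k, pow_mul, mul_comm 2 n, pow_mul] at h2
  exact (Nat.pow_le_pow_iff_left (by norm_num)).1 h2

lemma pow_le_two_pow (k : ℕ) : ∀ᶠ n : ℕ in atTop, n ^ k ≤ 2 ^ n := by
  have h := tendsto_pow_const_div_const_pow_of_one_lt k (show (1 : ℝ) < 2 by norm_num)
  have h2 := h.eventually (gt_mem_nhds (show (0 : ℝ) < 1 by norm_num))
  filter_upwards [h2] with n hn
  rw [div_lt_one (by positivity)] at hn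
  exact_mod_cast hn.le

lemma subExp_id : SubExp (fun n => n) := pow_le_two_pow

lemma SubExp.mono {f g : ℕ → ℕ} (hg : SubExp g) (h : ∀ᶠ n in atTop, f n ≤ g n) : SubExp f := by
  intro k
  filter_upwards [hg k, h] with n h1 h2
  exact (Nat.pow_le_pow_left h2 k).trans h1

lemma SubExp.mul {f g : ℕ → ℕ} (hf : SubExp f) (hg : SubExp g) : SubExp (fun n => f n * g n) := by
  intro k
  filter_upwards [hf (2 * k), hg (2 * k)] with n h1 h2
  have : ((f n * g n) ^ k) ^ 2 ≤ (2 ^ n) ^ 2 := by
    calc ((f n * g n) ^ k) ^ 2 = f n ^ (2 * k) * g n ^ (2 * k) := by ring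
      _ ≤ 2 ^ n * 2 ^ n := Nat.mul_le_mul h1 h2
      _ = (2 ^ n) ^ 2 := by ring
  exact (Nat.pow_le_pow_iff_left (by norm_num)).1 this

lemma SubExp.add_one {f : ℕ → ℕ} (hf : SubExp f) : SubExp (fun n => f n + 1) := by
  intro k
  filter_upwards [hf (2 * k), eventually_ge_atTop (2 * k)] with n h1 h2
  rcases Nat.eq_zero_or_pos (f n) with h0 | h0
  · simp [h0, Nat.one_le_two_pow]
  have : ((f n + 1) ^ k) ^ 2 ≤ (2 ^ n) ^ 2 := by
    calc ((f n + 1) ^ k) ^ 2 ≤ ((2 * f n) ^ k) ^ 2 := by
          gcongr; omega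
      _ = 2 ^ (2 * k) * f n ^ (2 * k) := by ring
      _ ≤ 2 ^ n * 2 ^ n := by
          apply Nat.mul_le_mul _ h1
          exact Nat.pow_le_pow_right (by norm_num) h2
      _ = (2 ^ n) ^ 2 := by ring
  exact (Nat.pow_le_pow_iff_left (by norm_num)).1 this

/-- A countable family of monotone subexponential functions is eventually dominated by one strictly
increasing subexponential function. -/
lemma diagonal (g : ℕ → ℕ → ℕ) (hmono : ∀ i, Monotone (g i)) (hsub : ∀ i, SubExp (g i)) :
    ∃ F : ℕ → ℕ, StrictMono F ∧ SubExp F ∧ ∀ i, ∀ᶠ n in atTop, g i n ≤ F n := by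
  classical
  let P : ℕ → ℕ → Prop := fun n m => ∀ n' ≥ n, ∀ i < m, g i n' ^ m ≤ 2 ^ n'
  have hP0 : ∀ n, P n 0 := fun n n' _ i hi => absurd hi (Nat.not_lt_zero _)
  have hPmono : ∀ {n n' m}, n ≤ n' → P n m → P n' m := fun h hp n'' hn'' i hi =>
    hp n'' (h.trans hn'') i hi
  have hPev : ∀ m, ∃ N, P N m := by
    intro m
    have : ∀ᶠ n in atTop, ∀ i ∈ Finset.range m, g i n ^ m ≤ 2 ^ n :=
      (Filter.eventually_all_finset _).2 (fun i _ => hsub i m)
    obtain ⟨N, hN⟩ := eventually_atTop.1 this
    exact ⟨N, fun n' hn' i hi => hN n' hn' i (Finset.mem_range.2 hi)⟩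
  let μ : ℕ → ℕ := fun n => Nat.findGreatest (P n) n
  have hμle : ∀ n, μ n ≤ n := fun n => Nat.findGreatest_le n
  have hμP : ∀ n, P n (μ n) := fun n => Nat.findGreatest_spec (Nat.zero_le n) (hP0 n)
  have hμmono : Monotone μ := by
    intro a b hab
    exact Nat.le_findGreatest ((hμle a).trans hab) (hPmono hab (hμP a))
  have hμtop : ∀ m, ∀ᶠ n in atTop, m ≤ μ n := by
    intro m
    obtain ⟨N, hN⟩ := hPev m
    filter_upwards [eventually_ge_atTop (max N m)] with n hn
    exact Nat.le_findGreatest (le_trans (le_max_right _ _) hn)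
      (hPmono (le_trans (le_max_left _ _) hn) hN)
  let F : ℕ → ℕ := fun n => n + ∑ i ∈ Finset.range (μ n), g i n
  have hFmono : StrictMono F := by
    intro a b hab
    have h1 : ∑ i ∈ Finset.range (μ a), g i a ≤ ∑ i ∈ Finset.range (μ b), g i b :=
      (Finset.sum_le_sum (fun i _ => hmono i hab.le)).trans
        (Finset.sum_le_sum_of_subset (Finset.range_mono (hμmono hab.le)))
    change a + _ < b + _
    omega
  refine ⟨F, hFmono, ?_, ?_⟩
  · intro k
    have h2 : ∀ᶠ n : ℕ in atTop, (n + n) ^ (4 * (k + 1)) ≤ 2 ^ (n + n) :=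
      (tendsto_atTop_mono (fun n => Nat.le_add_left n n) tendsto_id).eventually
        (pow_le_two_pow (4 * (k + 1)))
    filter_upwards [hμtop (4 * (k + 1)), h2, eventually_ge_atTop 1] with n hn h2n hn1
    -- a common bound for the `g i n`, `i < μ n`
    have hbound : ∀ i < μ n, g i n ^ (4 * (k + 1)) ≤ 2 ^ n := by
      intro i hi
      rcases Nat.eq_zero_or_pos (g i n) with h0 | h0
      · rw [h0, zero_pow (by omega)]; positivity
      · exact (Nat.pow_le_pow_right h0 hn).trans (hμP n n le_rfl i hi)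
    obtain ⟨M, hM1, hM2, hM3⟩ : ∃ M : ℕ, 1 ≤ M ∧ (∀ i < μ n, g i n ≤ M) ∧
        M ^ (4 * (k + 1)) ≤ 2 ^ n := by
      refine ⟨max 1 ((Finset.range (μ n)).sup (fun i => g i n)), le_max_left _ _, ?_, ?_⟩
      · intro i hi
        exact le_trans (Finset.le_sup (f := fun i => g i n) (Finset.mem_range.2 hi))
          (le_max_right _ _)
      · rcases le_total ((Finset.range (μ n)).sup (fun i => g i n)) 1 with h | h
        · rw [max_eq_left h, one_pow]; exact Nat.one_le_two_pow
        · rw [max_eq_right h]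
          have hne : (Finset.range (μ n)).Nonempty := by
            rw [Finset.nonempty_range_iff]; omega
          obtain ⟨i, hi, hie⟩ := Finset.exists_mem_eq_sup _ hne (fun i => g i n)
          rw [hie]
          exact hbound i (Finset.mem_range.1 hi)
    have hF : F n ≤ (n + n) * M := by
      have h3 : ∑ i ∈ Finset.range (μ n), g i n ≤ μ n * M := by
        calc ∑ i ∈ Finset.range (μ n), g i n ≤ ∑ i ∈ Finset.range (μ n), M :=
              Finset.sum_le_sum (fun i hi => hM2 i (Finset.mem_range.1 hi))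
          _ = μ n * M := by simp
      have h4 : μ n * M ≤ n * M := Nat.mul_le_mul_right _ (hμle n)
      have h5 : n ≤ n * M := Nat.le_mul_of_pos_right n hM1
      change n + _ ≤ _
      nlinarith
    have hF4 : (F n ^ (k + 1)) ^ 4 ≤ (2 ^ n) ^ 4 := by
      calc (F n ^ (k + 1)) ^ 4 ≤ (((n + n) * M) ^ (k + 1)) ^ 4 := by gcongr
        _ = (n + n) ^ (4 * (k + 1)) * M ^ (4 * (k + 1)) := by
            rw [← pow_mul, mul_comm (k + 1) 4, mul_pow]
        _ ≤ 2 ^ (n + n) * 2 ^ n := Nat.mul_le_mul h2n hM3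
        _ = 2 ^ (3 * n) := by rw [← pow_add]; ring_nf
        _ ≤ 2 ^ (4 * n) := Nat.pow_le_pow_right (by norm_num) (by omega)
        _ = (2 ^ n) ^ 4 := by rw [← pow_mul]; ring_nf
    have hF1 : F n ^ (k + 1) ≤ 2 ^ n := (Nat.pow_le_pow_iff_left (by norm_num)).1 hF4
    have hFpos : 1 ≤ F n := by
      change 1 ≤ n + _
      omega
    exact (Nat.pow_le_pow_right hFpos (Nat.le_succ k)).trans hF1
  · intro i
    filter_upwards [hμtop (i + 1)] with n hn
    have : g i n ≤ ∑ j ∈ Finset.range (μ n), g j n :=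
      Finset.single_le_sum (f := fun j => g j n) (fun j _ => Nat.zero_le _) (Finset.mem_range.2 (by omega))
    exact this.trans (Nat.le_add_left _ _)

/-! ### Countability -/

instance (k : ℕ) : Countable (FreeSemigroup (Fin k)) := by
  have : Function.Injective (fun w : FreeSemigroup (Fin k) => (w.head, w.tail)) := by
    intro a b h
    simp only [Prod.mk.injEq] at h
    exact FreeSemigroup.ext h.1 h.2
  exact this.countable

/-- finite presentations of semigroups -/
abbrev Pres : Type := Σ k : ℕ, Finset (FreeSemigroup (Fin k) × FreeSemigroup (Fin k))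

/-- the semigroup with a given presentation -/
abbrev Pres.Sem (p : Pres) : Type := (conGen fun a b => (a, b) ∈ p.2).Quotient

instance (p : Pres) : Countable p.Sem := by
  have : Function.Surjective (fun a : FreeSemigroup (Fin p.1) => (a : p.Sem)) :=
    Quotient.mk_surjective
  exact this.countable

lemma subExp_of_dom_ne {f : ℕ → ℕ} (hf : SubExp f) (hmono : Monotone f) :
    Dom f (fun n => 2 ^ n) ∧ ¬ Dom (fun n => 2 ^ n) f := by
  constructor
  · obtain ⟨N, hN⟩ := eventually_atTop.1 (hf 1)
    refine ⟨max 1 (f N), le_max_left _ _, fun n => ?_⟩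
    have h1 : 2 ^ n ≤ 2 ^ (max 1 (f N) * n) :=
      Nat.pow_le_pow_right (by norm_num)
        (Nat.le_mul_of_pos_left n (lt_of_lt_of_le one_pos (le_max_left _ _)))
    rcases le_total n N with h | h
    · calc f n ≤ f N := hmono h
        _ ≤ max 1 (f N) * 1 := by rw [mul_one]; exact le_max_right _ _
        _ ≤ max 1 (f N) * 2 ^ (max 1 (f N) * n) := Nat.mul_le_mul_left _ Nat.one_le_two_pow
    · calc f n ≤ 2 ^ n := by simpa using hN n h
        _ ≤ 2 ^ (max 1 (f N) * n) := h1
        _ ≤ max 1 (f N) * 2 ^ (max 1 (f N) * n) :=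
          Nat.le_mul_of_pos_left _ (lt_of_lt_of_le one_pos (le_max_left _ _))
  · rintro ⟨C, hC, h⟩
    obtain ⟨N, hN⟩ := eventually_atTop.1 (hf (2 * C))
    -- take `n` large
    set n := max N (C ^ 2) with hn
    have h1 : f (C * n) ^ (2 * C) ≤ 2 ^ (C * n) := by
      apply hN
      calc N ≤ n := le_max_left _ _
        _ ≤ C * n := Nat.le_mul_of_pos_left n hC
    have h2 : f (C * n) ^ 2 ≤ 2 ^ n := by
      have h1' : (f (C * n) ^ 2) ^ C ≤ (2 ^ n) ^ C := by
        rw [← pow_mul, ← pow_mul, mul_comm n C]; exact h1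
      exact (Nat.pow_le_pow_iff_left (show C ≠ 0 by omega)).1 h1'
    have h3 : 2 ^ n * 2 ^ n ≤ C ^ 2 * 2 ^ n := by
      calc 2 ^ n * 2 ^ n = (2 ^ n) ^ 2 := by ring
        _ ≤ (C * f (C * n)) ^ 2 := Nat.pow_le_pow_left (h n) 2
        _ = C ^ 2 * f (C * n) ^ 2 := by ring
        _ ≤ C ^ 2 * 2 ^ n := Nat.mul_le_mul_left _ h2
    have h4 : 2 ^ n ≤ C ^ 2 := Nat.le_of_mul_le_mul_right h3 (by positivity)
    have h5 : C ^ 2 ≤ n := le_max_right _ _
    have h6 : n < 2 ^ n := Nat.lt_two_pow_self
    omega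

/-- There is one strictly increasing function `f₂ ⪯ 2^n`, `f₂ ≁ 2^n`, such that for every `f₁` of
subexponential growth, every finitely presented semigroup `S` and every finite generating set `X`,
`f_S(n) ≥ f₁(n)` for all large `n` or `f_S(n) ≤ f₂(n)` for all large `n`. Moreover `f₁(n) = n^3` is
increasing, of subexponential growth, and satisfies `n^2 ⪯ f₁` and `f₁ ≁ n^2`. -/
theorem result :
    ∃ f₂ : ℕ → ℕ, StrictMono f₂ ∧ Dom f₂ (fun n => 2 ^ n) ∧ ¬ Equivalent f₂ (fun n => 2 ^ n) ∧
      (∀ f₁ : ℕ → ℕ, SubExp f₁ →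
        ∀ (S : Type u) [Semigroup S], IsFinitelyPresented S →
          ∀ X : Finset S, Subsemigroup.closure (X : Set S) = ⊤ →
            (∀ᶠ n in atTop, f₁ n ≤ growth X n) ∨ (∀ᶠ n in atTop, growth X n ≤ f₂ n)) ∧
      (StrictMono (fun n : ℕ => n ^ 3) ∧ SubExp (fun n => n ^ 3) ∧
        Dom (fun n => n ^ 2) (fun n => n ^ 3) ∧ ¬ Equivalent (fun n => n ^ 3) (fun n => n ^ 2)) := by
  classical
  let I : Type := Σ p : Pres, Finset p.Sem
  have : Nonempty I := ⟨⟨⟨0, ∅⟩, ∅⟩⟩
  obtain ⟨e, he⟩ := exists_surjective_nat I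
  let g : ℕ → ℕ → ℕ := fun i => if SubExp (growth (e i).2) then growth (e i).2 else fun _ => 0
  have hgmono : ∀ i, Monotone (g i) := by
    intro i
    by_cases h : SubExp (growth (e i).2)
    · simp only [g, if_pos h]; exact growth_mono _
    · simp only [g, if_neg h]; exact monotone_const
  have hgsub : ∀ i, SubExp (g i) := by
    intro i
    by_cases h : SubExp (growth (e i).2)
    · simp only [g, if_pos h]; exact h
    · simp only [g, if_neg h]
      intro k
      filter_upwards with n
      rcases Nat.eq_zero_or_pos k with rfl | hk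
      · simpa using Nat.one_le_two_pow
      · rw [zero_pow hk.ne']; positivity
  obtain ⟨F, hF1, hF2, hF3⟩ := diagonal g hgmono hgsub
  obtain ⟨hd1, hd2⟩ := subExp_of_dom_ne hF2 hF1.monotone
  refine ⟨F, hF1, hd1, fun h => hd2 h.2, ?_, ?_⟩
  · rintro f₁ hf₁ S _ ⟨k, r, ⟨φ⟩⟩ X _
    -- transfer to the presentation
    let p : Pres := ⟨k, r⟩
    let Y : Finset p.Sem := X.image φ.symm
    have hXY : growth X = growth Y := by
      refine growth_equiv φ Y X ?_
      simp only [Y, Finset.coe_image]
      rw [← Set.image_comp]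
      simp
    obtain ⟨i, hi⟩ := he ⟨p, Y⟩
    rcases dichotomy (fun n => growth X n + 1) (fun a b h => Nat.succ_le_succ (growth_mono X h))
      (growth_add X) with ⟨m, hm, hexp⟩ | hsub
    · left
      filter_upwards [hf₁.add_one m, eventually_ge_atTop 1] with n h1 h2
      have h3 := lt_of_le_of_lt h1 (hexp n h2)
      have h4 := lt_of_pow_lt_pow_left₀ m (Nat.zero_le _) h3
      omega
    · right
      have hsub' : SubExp (growth X) := hsub.mono (Eventually.of_forall fun n => Nat.le_succ _)
      have hgi : g i = growth X := by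
        have : growth (e i).2 = growth X := by rw [hi, hXY]
        simp only [g]
        rw [this, if_pos hsub']
      have := hF3 i
      rw [hgi] at this
      exact this
  · refine ⟨Nat.pow_left_strictMono (by norm_num), ?_, ⟨1, le_rfl, ?_⟩, ?_⟩
    · intro k
      have := pow_le_two_pow (3 * k)
      filter_upwards [this] with n hn
      rwa [← pow_mul]
    · intro n
      rw [one_mul, one_mul]
      rcases Nat.eq_zero_or_pos n with rfl | hn
      · simp
      · exact Nat.pow_le_pow_right hn (by norm_num)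
    · rintro ⟨⟨C, hC, h⟩, _⟩
      have := h (C ^ 3 + 1)
      simp only at this
      have h2 : C * (C * (C ^ 3 + 1)) ^ 2 = C ^ 3 * (C ^ 3 + 1) ^ 2 := by ring
      rw [h2, pow_succ (C ^ 3 + 1) 2, mul_comm] at this
      have h3 : 0 < (C ^ 3 + 1) ^ 2 := by positivity
      have := Nat.le_of_mul_le_mul_right this h3
      omega

end Pool.Agent.Results.MP_dd6e79_al.NoUniformOscillation
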